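import Pool.Agent.SGD.Stmts
import Pool.Agent.Helper56_SGP.CTR
import Pool.Agent.Helper81_SGP.Cone
import Pool.Agent.Helper77_SGP.ROT

/-! # Squad SGD, row CTF: a state gives a cut -/

set_option autoImplicit false

noncomputable section

namespace Pool.Agent.SGD.H10

open Pool.Agent.SGE Pool.Agent.SGP Pool.Agent.SGY Pool.Agent.SGD

theorem ctf (bnd : BndStmt) (bn2 : Bn2Stmt) : CtfStmt := by
  intro V _ a b c E F K C₁ C₂ h hK hI
  have hnd := h.nt.nd
  have hab : a ≠ b := h.nt.ab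
  have hac : a ≠ c := by
    intro e
    rw [e] at hnd
    simp at hnd
  have hcb : c ≠ b := by
    intro e
    rw [e] at hnd
    simp at hnd
  have ka : a ∉ K := fun hh => (h.sub hh).1 rfl
  have kb : b ∉ K := fun hh => (h.sub hh).2.1 rfl
  have kc : c ∉ K := fun hh => (h.sub hh).2.2.1 rfl
  have c1 : ∀ z ∈ C₁, ∃ y, offE E (K ∪ {c}) z y := fun z hz =>
    Pool.Agent.SGP.H56.contour_nb h.n1 hz
  have c2 : ∀ z ∈ C₂, ∃ y, onE E (K ∪ {a, c}) z y := fun z hz =>
    Pool.Agent.SGP.H56.contour_nb h.n2 hz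
  have nt1 : NT a b [a, c, b] (cE (offE E (K ∪ {c})) c C₁) (cF (offF F (K ∪ {c})) c C₁) := by
    apply Pool.Agent.SGP.H81.con h.n1
    · intro x hx
      exact hx.2.1 (Or.inr rfl)
    · intro hc
      obtain ⟨y, hy⟩ := c1 c hc
      exact hy.2.1 (Or.inr rfl)
  have hbK : b ∉ K ∪ {a, c} := by
    rintro (hh | hh | hh)
    · exact kb hh
    · exact hab hh.symm
    · exact hcb hh.symm
  have nt2' : NT c a [c, b, a] (cE (onE E (K ∪ {a, c})) b C₂) (cF (onF F (K ∪ {a, c})) b C₂) := by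
    apply Pool.Agent.SGP.H81.con h.n2
    · intro x hx
      exact hbK hx.2.1
    · intro hc
      obtain ⟨y, hy⟩ := c2 b hc
      exact hbK hy.2.1
  have nt2 : NT a b [a, c, b] (cE (onE E (K ∪ {a, c})) b C₂) (cF (onF F (K ∪ {a, c})) b C₂) :=
    Pool.Agent.SGP.H77.rot nt2'
  have t1 : ∀ x, x ∉ K ∪ {c} → th1 c K x = x := by
    intro x hx
    unfold th1
    rw [if_neg (fun hh => hx (Or.inl hh))]
  have t1' : ∀ x, x ∈ K ∪ {c} → th1 c K x = c := by
    intro x hx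
    unfold th1
    rcases hx with hx | hx
    · rw [if_pos hx]
    · have hx' : x = c := hx
      rw [hx']
      exact ite_self c
  have t2 : ∀ x, x ∈ K ∪ {a, c} → th2 a b c K x = x := by
    intro x hx
    unfold th2
    rw [if_pos]
    rcases hx with hx | hx | hx
    · exact Or.inl hx
    · exact Or.inr (Or.inl hx)
    · exact Or.inr (Or.inr hx)
  have t2' : ∀ x, x ∉ K ∪ {a, c} → th2 a b c K x = b := by
    intro x hx
    unfold th2
    rw [if_neg]
    rintro (hh | hh | hh)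
    · exact hx (Or.inl hh)
    · exact hx (Or.inr (Or.inl hh))
    · exact hx (Or.inr (Or.inr hh))
  have core1 : ∀ x y z, F x y z → x ∉ K ∪ {c} → y ∉ K ∪ {c} →
      cF (offF F (K ∪ {c})) c C₁ (th1 c K x) (th1 c K y) (th1 c K z) := by
    intro x y z hF hx hy
    rw [t1 x hx, t1 y hy]
    by_cases hz : z ∈ K ∪ {c}
    · rw [t1' z hz]
      have hE : offE E (K ∪ {c}) x y := ⟨h.nt.fe _ _ _ hF, hx, hy⟩
      have hno : ∀ w, ¬ offF F (K ∪ {c}) x y w := by
        intro w hw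
        have e := h.nt.fn _ _ _ _ hF hw.1
        rw [← e] at hw
        exact hw.2.2.2 hz
      rcases bnd h.n1 x y hE hno with hh | ⟨hxb, hya⟩
      · exact Or.inr (Or.inl ⟨hh, rfl⟩)
      · rw [hxb, hya] at hF
        exact absurd hF ((bn2 h.nt).2.2 z)
    · rw [t1 z hz]
      exact Or.inl ⟨hF, hx, hy, hz⟩
  have sub2 : ∀ x, x ∈ K ∪ {c} → x ∈ K ∪ {a, c} := by
    rintro x (hx | hx)
    · exact Or.inl hx
    · exact Or.inr (Or.inr hx)
  have core2 : ∀ x y z, F x y z → x ∈ K ∪ {c} → y ∈ K ∪ {c} →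
      cF (onF F (K ∪ {a, c})) b C₂ (th2 a b c K x) (th2 a b c K y) (th2 a b c K z) := by
    intro x y z hF hx hy
    rw [t2 x (sub2 x hx), t2 y (sub2 y hy)]
    by_cases hz : z ∈ K ∪ {a, c}
    · rw [t2 z hz]
      exact Or.inl ⟨hF, sub2 x hx, sub2 y hy, hz⟩
    · rw [t2' z hz]
      have hE : onE E (K ∪ {a, c}) x y := ⟨h.nt.fe _ _ _ hF, sub2 x hx, sub2 y hy⟩
      have hno : ∀ w, ¬ onF F (K ∪ {a, c}) x y w := by
        intro w hw
        have e := h.nt.fn _ _ _ _ hF hw.1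
        rw [← e] at hw
        exact hz hw.2.2.2
      rcases bnd h.n2 x y hE hno with hh | ⟨hxa, -⟩
      · exact Or.inr (Or.inl ⟨hh, rfl⟩)
      · exfalso
        rw [hxa] at hx
        rcases hx with hx | hx
        · exact ka hx
        · exact hac hx
  refine ⟨_, _, _, _, nt1, nt2, h.sub, hK, hI, ?_, ?_, ?_, ?_⟩
  · ext x
    constructor
    · rintro ⟨hxa, hxb, hxc, y, hy⟩
      have hx : ∃ y, offE E (K ∪ {c}) x y := by
        rcases hy with hy | ⟨hy, -⟩ | ⟨-, hy⟩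
        · exact ⟨y, hy⟩
        · exact absurd hy hxc
        · exact c1 x hy
      obtain ⟨w, hw⟩ := hx
      exact ⟨⟨hxa, hxb, hxc, w, hw.1⟩, fun hh => hw.2.1 (Or.inl hh)⟩
    · rintro ⟨⟨hxa, hxb, hxc, hr⟩, hxK⟩
      have hx : x ∉ K ∪ {c} := by
        rintro (hh | hh)
        · exact hxK hh
        · exact hxc hh
      obtain ⟨y, hy⟩ := h.r1 x hr hx
      exact ⟨hxa, hxb, hxc, y, Or.inl hy⟩
  · ext x
    constructor
    · rintro ⟨hxa, hxb, hxc, y, hy⟩
      have hx : ∃ y, onE E (K ∪ {a, c}) x y := by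
        rcases hy with hy | ⟨hy, -⟩ | ⟨-, hy⟩
        · exact ⟨y, hy⟩
        · exact absurd hy hxb
        · exact c2 x hy
      obtain ⟨w, hw⟩ := hx
      rcases hw.2.1 with hh | hh | hh
      · exact hh
      · exact absurd hh hxa
      · exact absurd hh hxc
    · intro hx
      obtain ⟨hxa, hxb, hxc, -⟩ := h.sub hx
      obtain ⟨y, hy⟩ := h.r2 x hx
      exact ⟨hxa, hxb, hxc, y, Or.inl hy⟩
  · intro x y z hF hT
    by_cases hx : x ∈ K ∪ {c}
    · have hy : y ∉ K ∪ {c} := fun hy => hT (Or.inl ⟨hx, hy⟩)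
      have hz : z ∉ K ∪ {c} := fun hz => hT (Or.inr (Or.inr ⟨hz, hx⟩))
      have h1 := core1 y z x (h.nt.rot _ _ _ hF) hy hz
      exact nt1.rot _ _ _ (nt1.rot _ _ _ h1)
    · by_cases hy : y ∈ K ∪ {c}
      · have hz : z ∉ K ∪ {c} := fun hz => hT (Or.inr (Or.inl ⟨hy, hz⟩))
        have h1 := core1 z x y (h.nt.rot _ _ _ (h.nt.rot _ _ _ hF)) hz hx
        exact nt1.rot _ _ _ h1
      · exact core1 x y z hF hx hy
  · intro x y z hF hT
    rcases hT with ⟨hx, hy⟩ | ⟨hy, hz⟩ | ⟨hz, hx⟩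
    · exact core2 x y z hF hx hy
    · have h1 := core2 y z x (h.nt.rot _ _ _ hF) hy hz
      exact nt2.rot _ _ _ (nt2.rot _ _ _ h1)
    · have h1 := core2 z x y (h.nt.rot _ _ _ (h.nt.rot _ _ _ hF)) hz hx
      exact nt2.rot _ _ _ h1

end Pool.Agent.SGD.H10
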